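import Pool.Agent.Q87.ClarkMain

/-! Full answer (no): a complex symmetric `3 × 3` matrix, unitarily equivalent to a truncated
Toeplitz operator on `K_Θ` with `Θ(z) = z³`, which is not the matrix of any truncated Toeplitz
operator with respect to any modified Aleksandrov-Clark basis. -/

set_option autoImplicit false
open Q87.Clark

namespace Pool.Agent.Results.MP_3119c3_an.NotClark

/-- There is a complex symmetric `3 × 3` matrix, unitarily equivalent to a truncated Toeplitz
operator, which is the matrix of no `A_φ^Θ` in any modified Aleksandrov-Clark basis of `K_Θ`. -/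
theorem result : ∃ M : Matrix (Fin 3) (Fin 3) ℂ,
    (∀ i j, M i j = M j i) ∧ UnitarilyTTO M ∧ ¬ ClarkMatrix M := by
  refine ⟨MM, ?_, unitarilyTTO_MM, not_clark⟩
  intro i j
  fin_cases i <;> fin_cases j <;> rfl

end Pool.Agent.Results.MP_3119c3_an.NotClark
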